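import Pool.Agent.K1H30.ES.Stm

/-!
# Elliptic scrolls: generic points
-/

set_option autoImplicit false

namespace Pool.Agent.K1H9.ES

open MvPolynomial Pool.Agent.K1H30.ES

/-- parity of degrees -/
theorem parity {M : Type} [CommRing M] [IsDomain M] (a b f : Polynomial M)
    (hf : Odd f.natDegree) (h : a ^ 2 = b ^ 2 * f) : b = 0 := by
  by_contra hb
  have hf0 : f ≠ 0 := by
    rintro rfl
    simp at hf
  have h1 := congrArg Polynomial.natDegree h
  rw [Polynomial.natDegree_pow, Polynomial.natDegree_mul (pow_ne_zero 2 hb) hf0,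
    Polynomial.natDegree_pow] at h1
  obtain ⟨k, hk⟩ := hf
  omega

theorem natDegree_f {M : Type} [CommRing M] [IsDomain M] (t : M) :
    ((Polynomial.X + Polynomial.C 1) * (Polynomial.X ^ 2 - Polynomial.C t) :
      Polynomial M).natDegree = 3 := by
  have h1 : (Polynomial.X + Polynomial.C (1 : M)) ≠ 0 := Polynomial.X_add_C_ne_zero 1
  have h2 : (Polynomial.X ^ 2 - Polynomial.C t : Polynomial M) ≠ 0 :=
    Polynomial.X_pow_sub_C_ne_zero (by norm_num) t
  rw [Polynomial.natDegree_mul h1 h2, Polynomial.natDegree_X_add_C,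
    Polynomial.natDegree_X_pow_sub_C]

/-- `y` is not a rational function of `x` -/
theorem key_abs {M : Type} [CommRing M] [IsDomain M] [Algebra M ℂ] (x : ℂ)
    (hx : Transcendental M x) (t : M) (y : ℂ)
    (hy : y ^ 2 = (1 + x) * (x ^ 2 - algebraMap M ℂ t)) (a b : Polynomial M)
    (h : Polynomial.aeval x a + Polynomial.aeval x b * y = 0) : Polynomial.aeval x b = 0 := by
  obtain ⟨f, hf⟩ : ∃ f : Polynomial M,
    f = (Polynomial.X + Polynomial.C 1) * (Polynomial.X ^ 2 - Polynomial.C t) := ⟨_, rfl⟩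
  have hfx : Polynomial.aeval x f = y ^ 2 := by
    rw [hf, hy]
    simp only [map_mul, map_add, map_sub, map_pow, Polynomial.aeval_X, Polynomial.aeval_C,
      map_one]
    ring
  have h1 : Polynomial.aeval x (a ^ 2 - b ^ 2 * f) = 0 := by
    rw [map_sub, map_mul, map_pow, map_pow, hfx]
    linear_combination (Polynomial.aeval x a - Polynomial.aeval x b * y) * h
  have h2 : a ^ 2 - b ^ 2 * f = 0 := (transcendental_iff.1 hx) _ h1
  have h3 : b = 0 := parity a b f (by rw [hf, natDegree_f]; decide) (sub_eq_zero.1 h2)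
  rw [h3, map_zero]

section
variable {n : ℕ}

/-- the variables other than the `y q`, `q ∉ T` -/
def VV (T : Finset (Fin n)) : Set (Option (Fin n × Fin 3)) :=
  {i | ∀ q, i = some (q, 1) → q ∈ T}

/-- the polynomials which involve only the `y q` with `q ∈ T` -/
noncomputable def SS (T : Finset (Fin n)) :
    Subalgebra ℤ (MvPolynomial (Option (Fin n × Fin 3)) ℤ) :=
  Algebra.adjoin ℤ (X '' VV T)

theorem X_mem_SS {T : Finset (Fin n)} {i : Option (Fin n × Fin 3)} (hi : i ∈ VV T) :
    (X i : MvPolynomial (Option (Fin n × Fin 3)) ℤ) ∈ SS T :=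
  Algebra.subset_adjoin ⟨i, hi, rfl⟩

/-- reduction modulo the equation of the point `k` -/
theorem nf (T : Finset (Fin n)) (k : Fin n) (p : MvPolynomial (Option (Fin n × Fin 3)) ℤ)
    (hp : p ∈ SS (insert k T)) :
    ∃ a ∈ SS T, ∃ b ∈ SS T, ∀ (K : Type) [CommRing K] (t' : K) (w' : Fin n → Fin 3 → K),
      (∀ q, OnE t' (w' q)) →
        aeval (pt t' w') p = aeval (pt t' w') a + aeval (pt t' w') b * w' k 1 := by
  unfold SS at hp
  induction hp using Algebra.adjoin_induction with
  | mem p hp =>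
    obtain ⟨i, hi, rfl⟩ := hp
    by_cases h : i ∈ VV T
    · exact ⟨X i, X_mem_SS h, 0, Subalgebra.zero_mem _, fun K _ t' w' _ => by
        rw [map_zero, zero_mul, add_zero]⟩
    · unfold VV at h
      rw [Set.mem_ofPred_eq] at h
      push Not at h
      obtain ⟨q, rfl, hq⟩ := h
      have hqk : q = k := by
        have := hi q rfl
        rcases Finset.mem_insert.1 this with h1 | h1
        · exact h1
        · exact absurd h1 hq
      subst hqk
      refine ⟨0, Subalgebra.zero_mem _, 1, Subalgebra.one_mem _, fun K _ t' w' _ => ?_⟩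
      rw [map_zero, map_one, zero_add, one_mul, aeval_X]
      rfl
  | algebraMap r =>
    exact ⟨algebraMap _ _ r, Subalgebra.algebraMap_mem _ r, 0, Subalgebra.zero_mem _,
      fun K _ t' w' _ => by rw [map_zero, zero_mul, add_zero]⟩
  | add p q _ _ hp hq =>
    obtain ⟨a, ha, b, hb, h⟩ := hp
    obtain ⟨a', ha', b', hb', h'⟩ := hq
    refine ⟨a + a', add_mem ha ha', b + b', add_mem hb hb', fun K _ t' w' hw => ?_⟩
    rw [map_add, h K t' w' hw, h' K t' w' hw, map_add, map_add]
    ring
  | mul p q _ _ hp hq =>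
    obtain ⟨a, ha, b, hb, h⟩ := hp
    obtain ⟨a', ha', b', hb', h'⟩ := hq
    have hx : (X (some (k, 0)) : MvPolynomial (Option (Fin n × Fin 3)) ℤ) ∈ SS T :=
      X_mem_SS (by
        intro q hq
        rw [Option.some.injEq, Prod.mk.injEq] at hq
        exact absurd hq.2 (by decide))
    have ht : (X none : MvPolynomial (Option (Fin n × Fin 3)) ℤ) ∈ SS T :=
      X_mem_SS (by
        intro q hq
        exact absurd hq (by simp))
    refine ⟨a * a' + b * b' * ((1 + X (some (k, 0))) * (X (some (k, 0)) ^ 2 - X none)), ?_,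
      a * b' + b * a', ?_, fun K _ t' w' hw => ?_⟩
    · exact add_mem (mul_mem ha ha') (mul_mem (mul_mem hb hb')
        (mul_mem (add_mem (one_mem _) hx) (sub_mem (pow_mem hx 2) ht)))
    · exact add_mem (mul_mem ha hb') (mul_mem hb ha')
    · have hk : (w' k 1) ^ 2 = (1 + w' k 0) * (w' k 0 ^ 2 - t') := hw k
      rw [map_mul, h K t' w' hw, h' K t' w' hw]
      simp only [map_add, map_mul, map_sub, map_pow, map_one, aeval_X]
      have e1 : pt t' w' (some (k, 0)) = w' k 0 := rfl
      have e2 : pt t' w' none = t' := rfl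
      rw [e1, e2]
      linear_combination (aeval (pt t' w') b * aeval (pt t' w') b') * hk

/-- no `y` at all -/
theorem base (t : ℂ) (w : Fin n → Fin 3 → ℂ) (hi : AlgebraicIndependent ℚ (gen t w))
    (p : MvPolynomial (Option (Fin n × Fin 3)) ℤ) (hp : p ∈ SS (∅ : Finset (Fin n)))
    (h0 : aeval (pt t w) p = 0) : p = 0 := by
  obtain ⟨emb, hemb⟩ : ∃ emb : Option (Fin n × Bool) → Option (Fin n × Fin 3),
    emb = fun o => o.map fun p => (p.1, if p.2 then 2 else 0) := ⟨_, rfl⟩
  have hle : SS (∅ : Finset (Fin n)) ≤ (rename (R := ℤ) emb).range := by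
    unfold SS
    rw [Algebra.adjoin_le_iff]
    rintro _ ⟨i, hi, rfl⟩
    rcases i with _ | ⟨q, j⟩
    · refine ⟨X none, ?_⟩
      change rename emb (X none) = X none
      rw [rename_X, hemb]
      rfl
    · have hj : j ≠ 1 := by
        rintro rfl
        exact absurd (hi q rfl) (Finset.notMem_empty q)
      have hj2 : j = 0 ∨ j = 2 := by
        revert hj
        revert j
        intro j _
        fin_cases j <;> simp
      rcases hj2 with rfl | rfl
      · refine ⟨X (some (q, false)), ?_⟩
        change rename emb (X (some (q, false))) = X (some (q, 0))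
        rw [rename_X, hemb]
        rfl
      · refine ⟨X (some (q, true)), ?_⟩
        change rename emb (X (some (q, true))) = X (some (q, 2))
        rw [rename_X, hemb]
        rfl
  obtain ⟨p0, rfl⟩ := hle hp
  change aeval (pt t w) (rename emb p0) = 0 at h0
  rw [aeval_rename] at h0
  have hg : pt t w ∘ emb = gen t w := by
    funext o
    rcases o with _ | ⟨q, b⟩
    · rw [hemb]; rfl
    · rw [hemb]; rfl
  rw [hg] at h0
  have hZ : AlgebraicIndependent ℤ (gen t w) :=
    AlgebraicIndependent.restrictScalars (K := ℚ) (by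
      intro a b hab
      exact_mod_cast hab) hi
  have h1 := (algebraicIndependent_iff.1 hZ) p0 h0
  rw [h1, map_zero]

/-- values at the generic point of polynomials without `y k` -/
theorem value (t : ℂ) (w : Fin n → Fin 3 → ℂ) (hw : ∀ q, OnE t (w q)) (k : Fin n)
    (T : Finset (Fin n)) (hk : k ∉ T) (A0 : Subalgebra ℚ ℂ)
    (hA : ∀ i : Option (Fin n × Bool), i ≠ some (k, false) → gen t w i ∈ A0)
    (p : MvPolynomial (Option (Fin n × Fin 3)) ℤ) (hp : p ∈ SS T) :
    ∃ P : Polynomial (Subalgebra.algebraicClosure A0 ℂ),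
      Polynomial.aeval (w k 0) P = aeval (pt t w) p := by
  have hcst : ∀ c : ℂ, IsAlgebraic A0 c →
      ∃ P : Polynomial (Subalgebra.algebraicClosure A0 ℂ), Polynomial.aeval (w k 0) P = c := by
    intro c hc
    refine ⟨Polynomial.C ⟨c, hc⟩, ?_⟩
    rw [Polynomial.aeval_C]
    rfl
  have hmem : ∀ c ∈ A0, IsAlgebraic A0 c := fun c hc => isAlgebraic_algebraMap (⟨c, hc⟩ : A0)
  have ht : t ∈ A0 := hA none (by simp)
  unfold SS at hp
  induction hp using Algebra.adjoin_induction with
  | mem p hp =>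
    obtain ⟨i, hi, rfl⟩ := hp
    rw [aeval_X]
    rcases i with _ | ⟨q, j⟩
    · exact hcst _ (hmem _ ht)
    · have hx : q ≠ k → w q 0 ∈ A0 := fun hq =>
        hA (some (q, false)) (by
          rw [Ne, Option.some.injEq, Prod.mk.injEq]
          exact fun h => hq h.1)
      have hz : w q 2 ∈ A0 := hA (some (q, true)) (by simp)
      fin_cases j
      · by_cases hq : q = k
        · subst hq
          exact ⟨Polynomial.X, by rw [Polynomial.aeval_X]; rfl⟩
        · exact hcst _ (hmem _ (hx hq))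
      · have hqT : q ∈ T := hi q rfl
        have hq : q ≠ k := fun h => hk (h ▸ hqT)
        refine hcst _ ?_
        have hx' := hx hq
        obtain ⟨c, hc⟩ : ∃ c : A0, (c : ℂ) = (1 + w q 0) * (w q 0 ^ 2 - t) :=
          ⟨⟨_, mul_mem (add_mem (one_mem _) hx') (sub_mem (pow_mem hx' 2) ht)⟩, rfl⟩
        refine ⟨Polynomial.X ^ 2 - Polynomial.C c,
          Polynomial.X_pow_sub_C_ne_zero (by norm_num) c, ?_⟩
        rw [map_sub, map_pow, Polynomial.aeval_X, Polynomial.aeval_C]
        have h1 : (w q 1) ^ 2 = (1 + w q 0) * (w q 0 ^ 2 - t) := hw q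
        change (w q 1) ^ 2 - (c : ℂ) = 0
        rw [hc, h1, sub_self]
      · exact hcst _ (hmem _ hz)
  | algebraMap r =>
    rw [AlgHom.commutes]
    refine hcst _ (hmem _ ?_)
    exact intCast_mem A0 r
  | add p q _ _ hp hq =>
    obtain ⟨P, hP⟩ := hp
    obtain ⟨Q, hQ⟩ := hq
    exact ⟨P + Q, by rw [map_add, map_add, hP, hQ]⟩
  | mul p q _ _ hp hq =>
    obtain ⟨P, hP⟩ := hp
    obtain ⟨Q, hQ⟩ := hq
    exact ⟨P * Q, by rw [map_mul, map_mul, hP, hQ]⟩

/-- the induction -/
theorem main (t : ℂ) (w : Fin n → Fin 3 → ℂ) (hi : AlgebraicIndependent ℚ (gen t w))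
    (hw : ∀ q, OnE t (w q)) (T : Finset (Fin n)) :
    ∀ p ∈ SS T, aeval (pt t w) p = 0 →
      ∀ (K : Type) [CommRing K] (t' : K) (w' : Fin n → Fin 3 → K), (∀ q, OnE t' (w' q)) →
        aeval (pt t' w') p = 0 := by
  induction T using Finset.induction_on with
  | empty =>
    intro p hp h0 K _ t' w' _
    rw [base t w hi p hp h0, map_zero]
  | insert k T hk ih =>
    intro p hp h0 K _ t' w' hw'
    obtain ⟨a, ha, b, hb, hab⟩ := nf T k p hp
    have h1 := hab ℂ t w hw
    rw [h0] at h1
    obtain ⟨A0, hA0⟩ : ∃ A0 : Subalgebra ℚ ℂ,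
      A0 = Algebra.adjoin ℚ (gen t w '' {i | i ≠ some (k, false)}) := ⟨_, rfl⟩
    have hA : ∀ i : Option (Fin n × Bool), i ≠ some (k, false) → gen t w i ∈ A0 := by
      intro i hik
      rw [hA0]
      exact Algebra.subset_adjoin ⟨i, hik, rfl⟩
    have htr : Transcendental A0 (w k 0) := by
      have := hi.transcendental_adjoin (s := {i | i ≠ some (k, false)}) (i := some (k, false))
        (by simp)
      rw [hA0]
      exact this
    obtain ⟨P, hP⟩ := value t w hw k T hk A0 hA a ha
    obtain ⟨Q, hQ⟩ := value t w hw k T hk A0 hA b hb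
    have ht : t ∈ A0 := hA none (by simp)
    have hb0 : aeval (pt t w) b = 0 := by
      rw [← hQ]
      refine key_abs (w k 0) htr.subalgebraAlgebraicClosure
        (⟨t, isAlgebraic_algebraMap (⟨t, ht⟩ : A0)⟩ : Subalgebra.algebraicClosure A0 ℂ) (w k 1)
        (hw k) P Q ?_
      rw [hP, hQ]
      exact h1.symm
    have ha0 : aeval (pt t w) a = 0 := by
      rw [hb0, zero_mul, add_zero] at h1
      exact h1.symm
    rw [hab K t' w' hw', ih a ha ha0 K t' w' hw', ih b hb hb0 K t' w' hw', zero_mul, add_zero]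

end

theorem t_GEN : S_GEN := by
  intro n t w hi hw p hp K _ t' w' hw'
  refine main t w hi hw Finset.univ p ?_ hp K t' w' hw'
  have h1 : VV (Finset.univ : Finset (Fin n)) = Set.univ := by
    ext i
    simp [VV]
  unfold SS
  rw [h1, Set.image_univ, MvPolynomial.adjoin_range_X]
  exact Algebra.mem_top

end Pool.Agent.K1H9.ES
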